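import Pool.Agent.Lib.MP_28303a_al.NT.A.Hc

/-! # The homology of the localization is the localization of the homology -/

set_option autoImplicit false
set_option linter.unusedSectionVars false
set_option linter.unusedVariables false

namespace Pool.Agent.NegK.NT

universe u

open CategoryTheory Limits

namespace H9

section

variable {k : Type u} [Ring k] {Γ : Type u} [Group Γ] {B : Type u} [MulAction Γ B] {P : Pre Γ B}

/-- The localization on free modules. -/
noncomputable abbrev ml (Γ : Type u) [Group Γ] (ι : Type u) :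
    (ι →₀ MonoidAlgebra (Polynomial k) Γ) →+ (ι →₀ MonoidAlgebra (LaurentPolynomial k) Γ) :=
  Loc.mf (Polynomial.toLaurent : Polynomial k →+* LaurentPolynomial k) ι

theorem ml_smul (ι : Type u) (c : Polynomial k) (x : ι →₀ MonoidAlgebra (Polynomial k) Γ) :
    ml Γ ι (c • x) = Polynomial.toLaurent c • ml Γ ι x := by
  rw [Loc.smul_one_single', Loc.smul_one_single', Loc.mf_smul, MonoidAlgebra.mapRingHom_single]

theorem ml_inj (ι : Type u) {x y : ι →₀ MonoidAlgebra (Polynomial k) Γ}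
    (h : ml Γ ι x = ml Γ ι y) : x = y := by
  ext1 i
  refine MonoidAlgebra.ext (Finsupp.ext fun g => ?_)
  have h1 := congrArg (fun z : ι →₀ MonoidAlgebra (LaurentPolynomial k) Γ => (z i).coeff g) h
  have h2 : Polynomial.toLaurent ((x i).coeff g) = Polynomial.toLaurent ((y i).coeff g) := by
    rw [← Loc.coeff_mf, ← Loc.coeff_mf]
    exact h1
  exact Polynomial.toLaurent_injective h2

theorem T_comm (n : ℤ) (x : LaurentPolynomial k) :
    LaurentPolynomial.T n * x = x * LaurentPolynomial.T n := (LaurentPolynomial.commute_T n x).eq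

/-- Common denominators. -/
theorem ml_den (ι : Type u) (y : ι →₀ MonoidAlgebra (LaurentPolynomial k) Γ) :
    ∃ (n : ℕ) (z : ι →₀ MonoidAlgebra (Polynomial k) Γ),
      ml Γ ι z = (LaurentPolynomial.T (n : ℤ) : LaurentPolynomial k) • y := by
  induction y using Finsupp.induction_linear with
  | zero => exact ⟨0, 0, by rw [map_zero, smul_zero]⟩
  | add x y hx hy =>
    obtain ⟨n, z, hz⟩ := hx
    obtain ⟨m, w, hw⟩ := hy
    refine ⟨n + m, (Polynomial.X ^ m : Polynomial k) • z + (Polynomial.X ^ n : Polynomial k) • w,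
      ?_⟩
    rw [map_add, ml_smul, ml_smul, Polynomial.toLaurent_X_pow, Polynomial.toLaurent_X_pow, hz, hw,
      smul_smul, smul_smul, ← LaurentPolynomial.T_add, ← LaurentPolynomial.T_add, smul_add,
      add_comm (m : ℤ), Nat.cast_add]
  | single i b =>
    have key : ∃ (n : ℕ) (z : MonoidAlgebra (Polynomial k) Γ),
        MonoidAlgebra.mapRingHom Γ (Polynomial.toLaurent : Polynomial k →+* LaurentPolynomial k) z =
          MonoidAlgebra.single 1 (LaurentPolynomial.T (n : ℤ)) * b := by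
      induction b using MonoidAlgebra.induction_linear with
      | zero => exact ⟨0, 0, by rw [map_zero, mul_zero]⟩
      | add x y hx hy =>
        obtain ⟨n, z, hz⟩ := hx
        obtain ⟨m, w, hw⟩ := hy
        refine ⟨n + m, MonoidAlgebra.single 1 (Polynomial.X ^ m) * z +
          MonoidAlgebra.single 1 (Polynomial.X ^ n) * w, ?_⟩
        rw [map_add, map_mul, map_mul, MonoidAlgebra.mapRingHom_single,
          MonoidAlgebra.mapRingHom_single, Polynomial.toLaurent_X_pow, Polynomial.toLaurent_X_pow,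
          hz, hw, ← mul_assoc, ← mul_assoc, MonoidAlgebra.single_mul_single,
          MonoidAlgebra.single_mul_single, ← LaurentPolynomial.T_add, ← LaurentPolynomial.T_add,
          mul_one, mul_add, add_comm (m : ℤ), Nat.cast_add]
      | single g q =>
        obtain ⟨n, f, hf⟩ := LaurentPolynomial.exists_T_pow q
        refine ⟨n, MonoidAlgebra.single g f, ?_⟩
        rw [MonoidAlgebra.mapRingHom_single, hf, MonoidAlgebra.single_mul_single, one_mul,
          T_comm]
    obtain ⟨n, z, hz⟩ := key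
    refine ⟨n, Finsupp.single i z, ?_⟩
    rw [Loc.mf_single, hz, Loc.smul_one_single', Finsupp.smul_single, smul_eq_mul]

theorem coeff_smul' {R : Type u} [Ring R] {ι : Type u} (c : R) (x : ι →₀ MonoidAlgebra R Γ)
    (i : ι) (g : Γ) : ((c • x) i).coeff g = c * (x i).coeff g := by
  rw [Finsupp.smul_apply, MonoidAlgebra.coeff_smul, Finsupp.smul_apply, smul_eq_mul]

/-- The localization of the values. -/
theorem ml_mem (A : Loc (Polynomial k) P) (U : B) {x : A.F} (hx : x ∈ A.evS U) :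
    ml Γ A.ι x ∈ (Loc.bo A : Loc (LaurentPolynomial k) P).evS U := by
  intro i g hg
  refine hx i g fun h => hg ?_
  rw [Loc.coeff_mf, h, map_zero]

theorem mem_of_ml (A : Loc (Polynomial k) P) (U : B) {z : A.F}
    {y : (Loc.bo A : Loc (LaurentPolynomial k) P).F} (c : LaurentPolynomial k)
    (hy : y ∈ (Loc.bo A : Loc (LaurentPolynomial k) P).evS U) (h : ml Γ A.ι z = c • y) :
    z ∈ A.evS U := by
  intro i g hg
  refine hy i g fun h1 => hg ?_
  have h2 : Polynomial.toLaurent ((z i).coeff g) = 0 := by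
    rw [← Loc.coeff_mf, h, coeff_smul', h1, mul_zero]
  exact (map_eq_zero_iff _ Polynomial.toLaurent_injective).1 h2

/-- The localized complex. -/
noncomputable abbrev lC (E : CochainComplex (Loc (Polynomial k) P) ℤ) :
    CochainComplex (Loc (LaurentPolynomial k) P) ℤ :=
  ((Loc.bc (Polynomial.toLaurent : Polynomial k →+* LaurentPolynomial k)).mapHomologicalComplex
    (ComplexShape.up ℤ)).obj E

theorem d_ml (E : CochainComplex (Loc (Polynomial k) P) ℤ) (n m : ℤ) (x : (E.X n).F) :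
    Loc.lin (A := Loc.bo (E.X n)) (A' := Loc.bo (E.X m)) ((lC E).d n m) (ml Γ (E.X n).ι x) =
      ml Γ (E.X m).ι (Loc.lin (E.d n m) x) :=
  Loc.bm_mf _ (E.d n m) x

/-- Cycles go to cycles. -/
noncomputable def mcy (E : CochainComplex (Loc (Polynomial k) P) ℤ) (n : ℤ) (U : (Bx P)ᵒᵖ)
    (x : cy E n U) : cy (lC E) n U :=
  ⟨⟨ml Γ (E.X n).ι x.1.1, ml_mem (E.X n) U.unop.pt x.1.2⟩, by
    have h1 := d_ml E n (n + 1) x.1.1
    have h2 : Loc.lin (E.d n (n + 1)) x.1.1 = 0 := x.2
    rw [h2, map_zero] at h1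
    exact h1⟩

theorem mcy_add (E : CochainComplex (Loc (Polynomial k) P) ℤ) (n : ℤ) (U : (Bx P)ᵒᵖ)
    (x y : cy E n U) : mcy E n U (x + y) = mcy E n U x + mcy E n U y :=
  Subtype.ext (Subtype.ext (map_add (ml Γ (E.X n).ι) _ _))

theorem mcy_smul (E : CochainComplex (Loc (Polynomial k) P) ℤ) (n : ℤ) (U : (Bx P)ᵒᵖ)
    (c : Polynomial k) (x : cy E n U) :
    mcy E n U (c • x) = (Polynomial.toLaurent c : LaurentPolynomial k) • mcy E n U x :=
  Subtype.ext (Subtype.ext (ml_smul (E.X n).ι c _))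

theorem mcy_zero (E : CochainComplex (Loc (Polynomial k) P) ℤ) (n : ℤ) (U : (Bx P)ᵒᵖ)
    (x : cy E n U) (h : hc E n U x = 0) : hc (lC E) n U (mcy E n U x) = 0 := by
  obtain ⟨y, hy, h1⟩ := (hc_zero E n U x).1 h
  refine (hc_zero (lC E) n U _).2 ⟨ml Γ (E.X (n - 1)).ι y, ml_mem (E.X (n - 1)) U.unop.pt hy, ?_⟩
  have h2 := d_ml E (n - 1) n y
  rw [h1] at h2
  exact h2

/-- A representative of a homology class. -/
noncomputable def rp (E : CochainComplex (Loc (Polynomial k) P) ℤ) (n : ℤ) (U : (Bx P)ᵒᵖ)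
    (h : ((hq (Polynomial k) P n).obj (qo E)).obj U) : cy E n U := (hc_surj E n U h).choose

theorem hc_rp (E : CochainComplex (Loc (Polynomial k) P) ℤ) (n : ℤ) (U : (Bx P)ᵒᵖ)
    (h : ((hq (Polynomial k) P n).obj (qo E)).obj U) : hc E n U (rp E n U h) = h :=
  (hc_surj E n U h).choose_spec

/-- The map of homology classes. -/
noncomputable def tF (E : CochainComplex (Loc (Polynomial k) P) ℤ) (n : ℤ) (U : (Bx P)ᵒᵖ)
    (h : ((hq (Polynomial k) P n).obj (qo E)).obj U) :
    ((hq (LaurentPolynomial k) P n).obj (qo (lC E))).obj U := hc (lC E) n U (mcy E n U (rp E n U h))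

theorem tF_hc (E : CochainComplex (Loc (Polynomial k) P) ℤ) (n : ℤ) (U : (Bx P)ᵒᵖ)
    (x : cy E n U) : tF E n U (hc E n U x) = hc (lC E) n U (mcy E n U x) := by
  have h1 : hc E n U (rp E n U (hc E n U x) + (-1 : Polynomial k) • x) = 0 := by
    rw [map_add, map_smul, hc_rp, neg_one_smul, add_neg_cancel]
  have h2 := mcy_zero E n U _ h1
  rw [mcy_add, mcy_smul, map_add, map_smul, map_neg, map_one, neg_one_smul,
    add_neg_eq_zero] at h2
  exact h2

/-- The map of homology classes. -/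
noncomputable def tL (E : CochainComplex (Loc (Polynomial k) P) ℤ) (n : ℤ) (U : (Bx P)ᵒᵖ) :
    ((hq (Polynomial k) P n).obj (qo E)).obj U →ₗ[Polynomial k]
      ((rsF k P).obj ((hq (LaurentPolynomial k) P n).obj (qo (lC E)))).obj U where
  toFun := tF E n U
  map_add' h h' := by
    obtain ⟨x, rfl⟩ := hc_surj E n U h
    obtain ⟨x', rfl⟩ := hc_surj E n U h'
    have h1 : tF E n U (hc E n U x + hc E n U x') = tF E n U (hc E n U x) +
        tF E n U (hc E n U x') := by
      rw [← map_add (hc E n U), tF_hc, tF_hc, tF_hc, mcy_add, map_add]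
    exact h1
  map_smul' c h := by
    obtain ⟨x, rfl⟩ := hc_surj E n U h
    have h1 : tF E n U (c • hc E n U x) =
        (Polynomial.toLaurent c : LaurentPolynomial k) • tF E n U (hc E n U x) := by
      rw [← map_smul (hc E n U), tF_hc, tF_hc, mcy_smul, map_smul]
    exact h1

/-- The map of homology functors. -/
noncomputable def tN (E : CochainComplex (Loc (Polynomial k) P) ℤ) (n : ℤ) :
    (hq (Polynomial k) P n).obj (qo E) ⟶
      (rsF k P).obj ((hq (LaurentPolynomial k) P n).obj (qo (lC E))) where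
  app U := (ModuleCat.ofHom (tL E n U) :)
  naturality U V g := by
    refine ModuleCat.hom_ext (LinearMap.ext fun h => ?_)
    obtain ⟨x, rfl⟩ := hc_surj E n U h
    have hx : (MonoidAlgebra.single (Bx.el g.unop) (1 : Polynomial k)) • x.1.1 ∈
        (E.X n).evS V.unop.pt := (E.X n).smul_mem_evS _ (Bx.le_el g.unop) x.1.2
    have hx' : Loc.lin (E.d n (n + 1))
        ((MonoidAlgebra.single (Bx.el g.unop) (1 : Polynomial k)) • x.1.1) = 0 := by
      rw [map_smul, show Loc.lin (E.d n (n + 1)) x.1.1 = 0 from x.2, smul_zero]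
    have h1 := hc_res E n g x ⟨⟨_, hx⟩, hx'⟩ rfl
    have h2 := hc_res (lC E) n g (mcy E n U x) (mcy E n V ⟨⟨_, hx⟩, hx'⟩) (by
      change ml Γ (E.X n).ι ((MonoidAlgebra.single (Bx.el g.unop) (1 : Polynomial k)) • x.1.1) = _
      rw [Loc.mf_smul, MonoidAlgebra.mapRingHom_single, map_one]
      rfl)
    change tF E n V ((((hq (Polynomial k) P n).obj (qo E)).map g).hom (hc E n U x)) =
      (((hq (LaurentPolynomial k) P n).obj (qo (lC E))).map g).hom (tF E n U (hc E n U x))
    rw [h1, tF_hc, tF_hc]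
    exact h2.symm

theorem tN_isLoc (E : CochainComplex (Loc (Polynomial k) P) ℤ) (n : ℤ) : IsLoc (tN E n) := by
  intro U
  constructor
  · intro h hh
    obtain ⟨x, rfl⟩ := hc_surj E n U h
    have h1 : hc (lC E) n U (mcy E n U x) = 0 := by
      rw [← tF_hc]
      exact hh
    obtain ⟨y, hy, h2⟩ := (hc_zero (lC E) n U _).1 h1
    obtain ⟨m, z, hz⟩ := ml_den (E.X (n - 1)).ι y
    have hz' : z ∈ (E.X (n - 1)).evS U.unop.pt := mem_of_ml (E.X (n - 1)) U.unop.pt _ hy hz
    refine ⟨m, ?_⟩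
    rw [← map_smul]
    refine (hc_zero E n U _).2 ⟨z, hz', ?_⟩
    have h3 := d_ml E (n - 1) n z
    rw [hz] at h3
    have h4 : Loc.lin (A := Loc.bo (E.X (n - 1))) (A' := Loc.bo (E.X n)) ((lC E).d (n - 1) n)
        ((LaurentPolynomial.T (m : ℤ) : LaurentPolynomial k) • y) =
          (LaurentPolynomial.T (m : ℤ) : LaurentPolynomial k) • ml Γ (E.X n).ι x.1.1 :=
      (Loc.lin_smul ((lC E).d (n - 1) n) (LaurentPolynomial.T (m : ℤ)) y).trans
        (congrArg (fun w => (LaurentPolynomial.T (m : ℤ) : LaurentPolynomial k) • w) h2)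
    have h6 := h4.symm.trans h3
    rw [← Polynomial.toLaurent_X_pow, ← ml_smul] at h6
    exact ml_inj (E.X n).ι h6.symm
  · intro h
    obtain ⟨y, rfl⟩ := hc_surj (lC E) n U h
    obtain ⟨m, z, hz⟩ := ml_den (E.X n).ι y.1.1
    have hz' : z ∈ (E.X n).evS U.unop.pt := mem_of_ml (E.X n) U.unop.pt _ y.1.2 hz
    have h1 : Loc.lin (E.d n (n + 1)) z = 0 := by
      refine ml_inj (E.X (n + 1)).ι (Eq.trans ?_ (map_zero (ml Γ (E.X (n + 1)).ι)).symm)
      have h3 := d_ml E n (n + 1) z
      rw [hz] at h3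
      refine h3.symm.trans ?_
      have h4 : Loc.lin ((lC E).d n (n + 1)) y.1.1 = 0 := y.2
      exact ((Loc.lin_smul ((lC E).d n (n + 1)) (LaurentPolynomial.T (m : ℤ)) y.1.1).trans
        (congrArg (fun w => (LaurentPolynomial.T (m : ℤ) : LaurentPolynomial k) • w) h4)).trans
          (smul_zero _)
    refine ⟨m, hc E n U ⟨⟨z, hz'⟩, h1⟩, ?_⟩
    rw [← map_smul]
    refine (tF_hc E n U _).trans ?_
    congr 1
    exact Subtype.ext (Subtype.ext hz)

/-- The localized chain map. -/
noncomputable abbrev lM {E E' : CochainComplex (Loc (Polynomial k) P) ℤ} (f : E ⟶ E') :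
    lC E ⟶ lC E' :=
  ((Loc.bc (Polynomial.toLaurent : Polynomial k →+* LaurentPolynomial k)).mapHomologicalComplex
    (ComplexShape.up ℤ)).map f

theorem f_ml {E E' : CochainComplex (Loc (Polynomial k) P) ℤ} (f : E ⟶ E') (n : ℤ)
    (x : (E.X n).F) :
    Loc.lin (A := Loc.bo (E.X n)) (A' := Loc.bo (E'.X n)) ((lM f).f n) (ml Γ (E.X n).ι x) =
      ml Γ (E'.X n).ι (Loc.lin (f.f n) x) :=
  Loc.bm_mf _ (f.f n) x

theorem hc_lM {E E' : CochainComplex (Loc (Polynomial k) P) ℤ} (f : E ⟶ E') (n : ℤ)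
    (U : (Bx P)ᵒᵖ) (x : cy E n U) (y : cy E' n U) (h : y.1.1 = Loc.lin (f.f n) x.1.1) :
    (mcy E' n U y).1.1 = Loc.lin ((lM f).f n) (mcy E n U x).1.1 := by
  have h1 := f_ml f n x.1.1
  rw [← h] at h1
  exact h1.symm

theorem hc_lM2 {E E' : CochainComplex (Loc (Polynomial k) P) ℤ} (f : E ⟶ E') (n : ℤ)
    (U : (Bx P)ᵒᵖ) (x : cy E n U) (y : cy E' n U) (h : y.1.1 = Loc.lin (f.f n) x.1.1) :
    (((hq (LaurentPolynomial k) P n).map ((HomotopyCategory.quotient
          (Loc (LaurentPolynomial k) P) (ComplexShape.up ℤ)).map (lM f))).app U).hom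
            (hc (lC E) n U (mcy E n U x)) = hc (lC E') n U (mcy E' n U y) :=
  hc_map (lM f) n U (mcy E n U x) (mcy E' n U y) (hc_lM f n U x y h)

theorem tN_nat0 {E E' : CochainComplex (Loc (Polynomial k) P) ℤ} (f : E ⟶ E') (n : ℤ)
    (U : (Bx P)ᵒᵖ) (h : ((hq (Polynomial k) P n).obj (qo E)).obj U) :
    tF E' n U ((((hq (Polynomial k) P n).map
      ((HomotopyCategory.quotient (Loc (Polynomial k) P) (ComplexShape.up ℤ)).map f)).app U).hom
      h) = (((hq (LaurentPolynomial k) P n).map ((HomotopyCategory.quotient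
          (Loc (LaurentPolynomial k) P) (ComplexShape.up ℤ)).map (lM f))).app U).hom
      (tF E n U h) := by
  obtain ⟨x, rfl⟩ := hc_surj E n U h
  have hx : Loc.lin (f.f n) x.1.1 ∈ (E'.X n).evS U.unop.pt := Loc.lin_mem (f.f n) x.1.2
  have hx' : Loc.lin (E'.d n (n + 1)) (Loc.lin (f.f n) x.1.1) = 0 := by
    have h1 := congrArg (fun g => Loc.lin g x.1.1) (f.comm n (n + 1))
    have h2 : Loc.lin (E.d n (n + 1)) x.1.1 = 0 := x.2
    refine Eq.trans h1 ?_
    change Loc.lin (f.f (n + 1)) (Loc.lin (E.d n (n + 1)) x.1.1) = 0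
    rw [h2, map_zero]
  have h1 := hc_map f n U x ⟨⟨_, hx⟩, hx'⟩ rfl
  have h2 := hc_lM2 f n U x ⟨⟨_, hx⟩, hx'⟩ rfl
  rw [h1, tF_hc, tF_hc]
  exact h2.symm

theorem tN_nat {E E' : CochainComplex (Loc (Polynomial k) P) ℤ} (f : E ⟶ E') (n : ℤ) :
    (hq (Polynomial k) P n).map ((HomotopyCategory.quotient (Loc (Polynomial k) P)
      (ComplexShape.up ℤ)).map f) ≫ tN E' n = tN E n ≫ (rsF k P).map
        ((hq (LaurentPolynomial k) P n).map ((HomotopyCategory.quotient
          (Loc (LaurentPolynomial k) P) (ComplexShape.up ℤ)).map (lM f))) := by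
  refine NatTrans.ext (funext fun U => ModuleCat.hom_ext (LinearMap.ext fun h => ?_))
  exact tN_nat0 f n U h

end

end H9

/-- The homology of `loc X` is the localization of the homology of `X`. -/
theorem isloc : IslocStatement.{u} := by
  intro k _ Γ _ B _ P n
  refine ⟨{ app := fun X => H9.tN X.as n, naturality := ?_ }, fun X => H9.tN_isLoc X.as n⟩
  intro X Y f
  obtain ⟨f, rfl⟩ := (HomotopyCategory.quotient (Loc (Polynomial k) P)
    (ComplexShape.up ℤ)).map_surjective (X := X.as) (Y := Y.as) f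
  exact H9.tN_nat f n
end Pool.Agent.NegK.NT
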